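import Mathlib
import Pool.Agent.Q199.Ultra.Defs
import Pool.Agent.Q199.Ultra.Main

set_option autoImplicit false

namespace Pool.Agent.Results.MP_0564d2_an.UnivInjectiveZFC

open Pool.Agent.Q199.Ultra Cardinal

universe u

/-- Let `κ` be an uncountable cardinal, `U` a countably incomplete `κ`-good ultrafilter on `I` and
`X i` real Banach spaces. If the ultraproduct of the `X i` over `U` is a Lindenstrauss space, then
it is universally `(1, κ)`-injective (in particular universally `κ`-injective). -/
theorem result (κ : Cardinal.{u}) (hκ : ℵ₀ < κ) (I : Type u) (U : Ultrafilter I)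
    (hinc : CountablyIncomplete U) (hgood : IsGood U κ) (X : I → Type u)
    [∀ i, NormedAddCommGroup (X i)] [∀ i, NormedSpace ℝ (X i)] [∀ i, CompleteSpace (X i)]
    (hX : IsLindenstrauss ℝ (UProd ℝ U X)) : IsUnivInjective ℝ (UProd ℝ U X) 1 κ :=
  univInjective hκ hinc hgood zero_le_one hX

end Pool.Agent.Results.MP_0564d2_an.UnivInjectiveZFC
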